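import Pool.Agent.H.MP_ac1762_co.Fin

set_option autoImplicit false

namespace Pool.Agent.Results.MP_ac1762_co.Yes

/-- combinatorial `(n_3)` configuration: `I p l` means that point `p` lies on line `l` -/
def Config (n : ℕ) (I : Fin n → Fin n → Prop) : Prop :=
  (∀ l, {p | I p l}.ncard = 3) ∧ (∀ p, {l | I p l}.ncard = 3) ∧
    ∀ p q, p ≠ q → {l | I p l ∧ I q l}.Subsingleton

/-- geometric representation in Euclidean `m`-space -/
def Represents {n m : ℕ} (I : Fin n → Fin n → Prop) (P : Fin n → EuclideanSpace ℝ (Fin m))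
    (L : Fin n → AffineSubspace ℝ (EuclideanSpace ℝ (Fin m))) : Prop :=
  Function.Injective P ∧ Function.Injective L ∧
    (∀ l, Module.finrank ℝ (L l).direction = 1) ∧ ∀ p l, P p ∈ L l ↔ I p l

/-- dimensions of the affine hulls of the point sets of all representations -/
def Dims {n : ℕ} (I : Fin n → Fin n → Prop) : Set ℕ :=
  {d | ∃ (m : ℕ) (P : Fin n → EuclideanSpace ℝ (Fin m))
    (L : Fin n → AffineSubspace ℝ (EuclideanSpace ℝ (Fin m))),
    Represents I P L ∧ Module.finrank ℝ (affineSpan ℝ (Set.range P)).direction = d}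

theorem result (n : ℕ) (h0 : 0 < n) (hn : n ≤ 14) (I : Fin n → Fin n → Prop) (hI : Config n I)
    (hr : (Dims I).Nonempty) : IsGreatest (Dims I) 2 ∨ IsGreatest (Dims I) 3 := by
  have H : ∀ d ∈ Dims I, 2 ≤ d ∧ d ≤ 3 := by
    rintro d ⟨m, P, L, ⟨a, -, c, e⟩, rfl⟩
    have C : Pool.Agent.H.MP_ac1762_co.Ctx I P L := ⟨hI.1, hI.2.1, hI.2.2, a, c, e⟩
    exact ⟨C.lower h0, C.upper h0 hn⟩
  by_cases h3 : 3 ∈ Dims I
  · exact Or.inr ⟨h3, fun d hd => (H d hd).2⟩
  · obtain ⟨d, hd⟩ := hr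
    have e : ∀ d ∈ Dims I, d = 2 := fun d hd => by
      have := H d hd
      have : d ≠ 3 := fun e => h3 (e ▸ hd)
      omega
    exact Or.inl ⟨e d hd ▸ hd, fun d hd => (e d hd).le⟩

end Pool.Agent.Results.MP_ac1762_co.Yes
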